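import Pool.Agent.Helper26.Cc.Fin

/-!
# The current-current correlation measure of the Anderson model charges no rectifiable curve

`H = Δ_ω = -Δ + ω` on `ℤ^d`, `d ≥ 1`, `ω_j` iid with an arbitrary law of bounded density and
bounded support (for instance uniform on `[-c, c]`, any `c > 0`); no assumption on the size of the
disorder.

For a bounded covariant observable `A` the correlation measure
`m(dx, dy) = E ⟨A δ₀, P(dx) A P(dy) δ₀⟩`, `P` the spectral projections of `H`, exists, is unique, and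
gives mass zero to the part off the diagonal of every rectifiable curve. If `A` is the velocity (`m`
is the current-current correlation measure) it gives mass zero to every rectifiable curve.
-/

set_option autoImplicit false

open MeasureTheory Filter Topology ProbabilityTheory
open scoped BigOperators ENNReal NNReal

namespace Pool.Agent.Results.MP_562b47_mp.CurrentCorrelations

/-- `ℓ²(ℤ^d)` -/
abbrev L2 (d : ℕ) : Type := lp (fun _ : Fin d → ℤ => ℂ) 2

/-- the operator of the problem, `(Δ_ω u)(j) = -∑_{|n|=1} (u(j+n) - u(j)) + ω_j u(j)` (the unit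
vectors `n` are `± e_i`), for an arbitrary function `u : ℤ^d → ℂ` -/
noncomputable def H {d : ℕ} (ω : (Fin d → ℤ) → ℝ) (u : (Fin d → ℤ) → ℂ) (j : Fin d → ℤ) : ℂ :=
  -(∑ i : Fin d, ((u (j + Pi.single i 1) - u j) + (u (j - Pi.single i 1) - u j))) + (ω j : ℂ) * u j

/-- the law of iid variables with law `μ` -/
noncomputable def iid (d : ℕ) (μ : Measure ℝ) : Measure ((Fin d → ℤ) → ℝ) :=
  Measure.infinitePi fun _ => μ

/-- `U t = e^{-itΔ_ω}` -/
structure IsPropagator {d : ℕ} (ω : (Fin d → ℤ) → ℝ) (U : ℝ → L2 d → L2 d) : Prop where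
  zero : ∀ u, U 0 u = u
  norm : ∀ t u, ‖U t u‖ = ‖u‖
  schrodinger : ∀ u t x, HasDerivAt (fun s => (U s u) x)
    (-Complex.I * H ω (fun y => (U t u) y) x) t

/-- covariant under all translations at the potential `ω`: if `w = u(· + z)` then
`A_{ω(· + z)} w = (A_ω u)(· + z)` -/
def CovariantAt {d : ℕ} (A : ((Fin d → ℤ) → ℝ) → L2 d → L2 d) (ω : (Fin d → ℤ) → ℝ) : Prop :=
  ∀ (z : Fin d → ℤ) (u w : L2 d), (∀ x, w x = u (x + z)) →
    ∀ x, (A (fun y => ω (y + z)) w) x = (A ω u) (x + z)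

/-- covariant observables: bounded linear operators `A_ω` on `ℓ²(ℤ^d)`, bounded uniformly in `ω`,
measurable in `ω`, and almost surely covariant under translations -/
structure IsField {d : ℕ} (P : Measure ((Fin d → ℤ) → ℝ))
    (A : ((Fin d → ℤ) → ℝ) → L2 d → L2 d) : Prop where
  linear : ∀ (ω : (Fin d → ℤ) → ℝ) (a : ℂ) (u w : L2 d), A ω (a • u + w) = a • A ω u + A ω w
  bounded : ∃ M : ℝ, ∀ (ω : (Fin d → ℤ) → ℝ) (u : L2 d), ‖A ω u‖ ≤ M * ‖u‖
  measurable : ∀ (u : L2 d) (x : Fin d → ℤ), Measurable fun ω => (A ω u) x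
  covariant : ∀ᵐ ω ∂P, CovariantAt A ω

/-- `v = i[H, X_j]`, that is, `(v u)(x) = i (u(x - e_j) - u(x + e_j))` -/
def IsVelocity {d : ℕ} (j : Fin d) (v : L2 d → L2 d) : Prop :=
  ∀ (u : L2 d) (x : Fin d → ℤ),
    (v u) x = Complex.I * (u (x - Pi.single j 1) - u (x + Pi.single j 1))

/-- `δ₀` -/
noncomputable def delta (d : ℕ) : L2 d := lp.single 2 0 (1 : ℂ)

/-- `m(dx, dy) = E ⟨A δ₀, P(dx) A P(dy) δ₀⟩` with `P` the spectral projections of `Δ_ω`, characterised
by the Fourier transform `∫ e^{i(sx + ty)} m(dx, dy) = E ⟨A δ₀, e^{isH} A e^{itH} δ₀⟩` -/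
structure IsCorrelationMeasure {d : ℕ} (P : Measure ((Fin d → ℤ) → ℝ))
    (U : ((Fin d → ℤ) → ℝ) → ℝ → L2 d → L2 d) (A : ((Fin d → ℤ) → ℝ) → L2 d → L2 d)
    (m : Measure (ℝ × ℝ)) : Prop where
  finite : IsFiniteMeasure m
  fourier : ∀ s t : ℝ, ∫ p, Complex.exp (Complex.I * (s * p.1 + t * p.2)) ∂m =
    ∫ ω, inner ℂ (A ω (delta d)) (U ω (-s) (A ω (U ω (-t) (delta d)))) ∂P

open Pool.Agent.H5R2 Pool.Agent.Helper26.Nb Pool.Agent.Helper26.Cm Pool.Agent.Helper26.Dj
  Pool.Agent.Helper26.Rg Pool.Agent.Helper26.Wn Pool.Agent.Helper26.Cc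

theorem hop_eq {d : ℕ} (ω : (Fin d → ℤ) → ℝ) (u : (Fin d → ℤ) → ℂ)
    (x : Fin d → ℤ) :
    NB.hopf (-1) u x + ((af 1 (2 * d) (ω x) : ℝ) : ℂ) * u x = H ω u x := by
  unfold NB.hopf H af
  have : ∑ i : Fin d, ((u (x + Pi.single i 1) - u x) + (u (x - Pi.single i 1) - u x)) =
      ∑ i : Fin d, (u (x + Pi.single i 1) + u (x - Pi.single i 1)) - 2 * d * u x := by
    have h : ∀ i : Fin d, (u (x + Pi.single i 1) - u x) + (u (x - Pi.single i 1) - u x) =
        (u (x + Pi.single i 1) + u (x - Pi.single i 1)) - 2 * u x := fun i => by ring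
    simp only [h, Finset.sum_sub_distrib, Finset.sum_const, Finset.card_univ, Fintype.card_fin,
      nsmul_eq_mul]
    ring
  rw [this]
  push_cast
  ring

theorem sol_of_prop {d : ℕ} {ω : (Fin d → ℤ) → ℝ} {U : ℝ → L2 d → L2 d}
    (hU : IsPropagator ω U) (u : L2 d) :
    NB.IsSol (-1) (pot (af 1 (2 * d)) ω) (fun t => U t u) (fun _ => 0) := by
  refine ⟨fun T => ⟨‖u‖, fun t _ => (hU.norm t u).le⟩, fun t x => ?_⟩
  have h := hU.schrodinger u t x
  refine h.congr_deriv ?_
  rw [← hop_eq]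
  simp [pot]

theorem prop_of_grp {d : ℕ} {ω : (Fin d → ℤ) → ℝ} {W : NB.UG (NB.L2 (NB.Site d))}
    (hW : NB.IsGrp (-1) (pot (af 1 (2 * d)) ω) W) :
    IsPropagator ω (fun t u => W.U t u) := by
  refine ⟨W.zero', W.norm', fun u t x => ?_⟩
  have h := (hW u).2 t x
  refine h.congr_deriv ?_
  rw [← hop_eq]
  simp [pot]

theorem prop_eq {d : ℕ} {ω : (Fin d → ℤ) → ℝ} {W : NB.UG (NB.L2 (NB.Site d))}
    (hW : NB.IsGrp (-1) (pot (af 1 (2 * d)) ω) W) {U : ℝ → L2 d → L2 d}
    (hU : IsPropagator ω U) (t : ℝ) (u : L2 d) : U t u = W.U t u := by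
  have h := NB.ALL.a_UN d (-1) _ W hW (fun t => U t u) (fun _ => 0)
    continuous_const (sol_of_prop hU u) t
  simpa [hU.zero u] using h

/-- linear maps -/
noncomputable def lin {d : ℕ} (A : L2 d → L2 d)
    (hl : ∀ (a : ℂ) (u w : L2 d), A (a • u + w) = a • A u + A w)
    (hb : ∃ M : ℝ, ∀ u, ‖A u‖ ≤ M * ‖u‖) : L2 d →L[ℂ] L2 d :=
  LinearMap.mkContinuousOfExistsBound
    { toFun := A
      map_add' := fun u w => by
        have h := hl 1 u w
        rwa [one_smul, one_smul] at h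
      map_smul' := fun c u => by
        have h0 : A 0 = 0 := by
          have h := hl (-1) 0 0
          simpa using h
        have h := hl c u 0
        rwa [add_zero, h0, add_zero] at h } hb

/-- Let `ω_j`, `j ∈ ℤ^d`, be iid with law `μ`, which has a bounded density and bounded support (for
instance, uniform on `[-c, c]`), and `H = Δ_ω`. The propagators `U_ω(t) = e^{-itH}` exist and are
unique. For every covariant observable `A` there is exactly one correlation measure `m`, and it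
gives mass zero to the points off the diagonal of every rectifiable (Lipschitz) curve `γ` of the
plane. For the velocity operators it gives mass zero to every rectifiable curve. -/
theorem result (d : ℕ) (μ : Measure ℝ) [IsProbabilityMeasure μ] (D : ℝ≥0)
    (hμ : μ ≤ D • volume) (R : ℝ) (hR : ∀ᵐ r ∂μ, |r| ≤ R) :
    (∀ ω : (Fin d → ℤ) → ℝ, ∃! U : ℝ → L2 d → L2 d, IsPropagator ω U) ∧
    ∀ U : ((Fin d → ℤ) → ℝ) → ℝ → L2 d → L2 d, (∀ ω, IsPropagator ω (U ω)) →
      (∀ A : ((Fin d → ℤ) → ℝ) → L2 d → L2 d, IsField (iid d μ) A →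
        (∃! m : Measure (ℝ × ℝ), IsCorrelationMeasure (iid d μ) U A m) ∧
        ∀ m : Measure (ℝ × ℝ), IsCorrelationMeasure (iid d μ) U A m →
          ∀ (K : ℝ≥0) (γ : ℝ → ℝ × ℝ), LipschitzWith K γ →
            m {p | p ∈ Set.range γ ∧ p.1 ≠ p.2} = 0) ∧
      (∀ (j : Fin d) (v : L2 d → L2 d), IsVelocity j v →
        (∃! m : Measure (ℝ × ℝ), IsCorrelationMeasure (iid d μ) U (fun _ => v) m) ∧
        ∀ m : Measure (ℝ × ℝ), IsCorrelationMeasure (iid d μ) U (fun _ => v) m →
          ∀ (K : ℝ≥0) (γ : ℝ → ℝ × ℝ), LipschitzWith K γ → m (Set.range γ) = 0) := by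
  classical
  refine ⟨fun ω => ?_, fun U hU => ?_⟩
  · obtain ⟨W, hW⟩ := NB.ALL.a_EX d (-1) (pot (af 1 (2 * d)) ω)
    refine ⟨fun t u => W.U t u, prop_of_grp hW, fun U hU => ?_⟩
    funext t u
    exact prop_eq hW hU t u
  set P : Measure ((Fin d → ℤ) → ℝ) := iid d μ with hP
  have hac : μ ≪ volume := (Measure.absolutelyContinuous_of_le hμ).trans
    Measure.smul_absolutelyContinuous
  choose ev hev using fun V : NB.Site d → ℝ => NB.ALL.a_EX d (-1) V
  have hUe : ∀ (ω : (Fin d → ℤ) → ℝ) (t : ℝ) (u : L2 d),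
      U ω t u = (ev (pot (af 1 (2 * d)) ω)).U t u := fun ω t u =>
    prop_eq (hev _) (hU ω) t u
  have huniq : ∀ (A : ((Fin d → ℤ) → ℝ) → L2 d → L2 d) (m m' : Measure (ℝ × ℝ)),
      IsCorrelationMeasure P U A m → IsCorrelationMeasure P U A m' → m' = m := by
    intro A m m' hm hm'
    have h1 := hm.finite
    have h2 := hm'.finite
    exact ft_ext fun s t => by rw [hm.fourier, hm'.fourier]
  refine ⟨fun A hA => ?_, fun j v hv => ?_⟩
  · -- covariant observables
    obtain ⟨M, hM⟩ := hA.bounded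
    set XL : ((Fin d → ℤ) → ℝ) → NB.L2 (NB.Site d) →L[ℂ] NB.L2 (NB.Site d) := fun V =>
      lin (A V) (hA.linear V) ⟨M, hM V⟩ with hXL
    obtain ⟨G, hGm, hG, hGi, hGa⟩ := inv_set (d := d) μ hA.covariant
    have hcv : Cv fun V => if V ∈ G then XL V else 0 := by
      refine cv_mod hGm hGi (fun V hV z S hS ψ => ?_) (fun x y => hA.measurable _ x)
        ⟨max M 0, fun V => ?_⟩ 0 (fun z S hS ψ => by simp)
      · ext j
        rw [hS]
        exact hG V hV z ψ (S ψ) (fun j => hS ψ j) j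
      · refine ContinuousLinearMap.opNorm_le_bound _ (le_max_right _ _) fun x => ?_
        exact (hM V x).trans (by gcongr; exact le_max_left _ _)
    have key : ∀ V, V ∈ G → ∀ (s t : ℝ) (u : L2 d),
        ((ev (pot (af 1 (2 * d)) V)).U s)
          ((if V ∈ G then XL V else 0) ((ev (pot (af 1 (2 * d)) V)).U t u)) =
        U V s (A V (U V t u)) := by
      intro V hV s t u
      rw [if_pos hV, hUe, hUe]
      rfl
    have hfou : ∀ s t : ℝ, ∫ ω, inner ℂ (A ω (delta d)) (U ω (-s) (A ω (U ω (-t) (delta d)))) ∂P =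
        c2 μ ev 1 (2 * d) (fun V => if V ∈ G then XL V else 0) s t := by
      intro s t
      refine integral_congr_ae ?_
      filter_upwards [hGa] with V hV
      rw [key V hV, if_pos hV]
      rfl
    refine ⟨?_, fun m hm => ?_⟩
    · obtain ⟨m, h1, h2⟩ := exist hev μ hR (2 * d) hcv
      have hm : IsCorrelationMeasure P U A m := ⟨h1, fun s t => by rw [h2, hfou]⟩
      exact ⟨m, hm, fun m' hm' => huniq A m m' hm hm'⟩
    · have hfin := hm.finite
      exact curves hev μ hμ hR (2 * d) hcv m fun s t => by rw [hm.fourier, hfou]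
  · -- the velocity
    obtain ⟨v₀, hv₀⟩ := (NB.t_OPS d).2.2 (-1) j
    have hvv : ∀ u : L2 d, v u = v₀ u := by
      intro u
      ext x
      rw [hv, hv₀]
      push_cast
      ring
    have hcv : Cv fun _ : (Fin d → ℤ) → ℝ => v₀ := cv_vel hv₀
    have hz := vel_zero (o := 2 * d) hev one_ne_zero hμ hv₀
    have key : ∀ (V : (Fin d → ℤ) → ℝ) (s t : ℝ) (u : L2 d),
        ((ev (pot (af 1 (2 * d)) V)).U s) (v₀ ((ev (pot (af 1 (2 * d)) V)).U t u)) =
        U V s (v (U V t u)) := by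
      intro V s t u
      rw [hUe, hUe, hvv]
    have hfou : ∀ s t : ℝ, ∫ ω, inner ℂ (v (delta d)) (U ω (-s) (v (U ω (-t) (delta d)))) ∂P =
        c2 μ ev 1 (2 * d) (fun _ => v₀) s t := by
      intro s t
      refine integral_congr_ae (Eventually.of_forall fun V => ?_)
      simp only
      rw [key V, hvv]
      rfl
    refine ⟨?_, fun m hm K γ hγ => ?_⟩
    · obtain ⟨m, h1, h2⟩ := exist hev μ hR (2 * d) hcv
      have hm : IsCorrelationMeasure P U (fun _ => v) m := ⟨h1, fun s t => by rw [h2, hfou]⟩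
      exact ⟨m, hm, fun m' hm' => huniq _ m m' hm hm'⟩
    · have hfin := hm.finite
      have hM : ∀ s t : ℝ, ∫ p, Complex.exp (Complex.I * (s * p.1 + t * p.2)) ∂m =
          c2 μ ev 1 (2 * d) (fun _ => v₀) s t := fun s t => by rw [hm.fourier, hfou]
      have h1 := diag hev hcv hz m hM
      have h2 := curves hev μ hμ hR (2 * d) hcv m hM K γ hγ
      refine measure_mono_null (fun p hp => ?_) (measure_union_null h1 h2)
      by_cases h : p.1 = p.2
      · exact Or.inl h
      · exact Or.inr ⟨hp, h⟩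

end Pool.Agent.Results.MP_562b47_mp.CurrentCorrelations
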