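import Pool.Agent.Helper32.SD.Fin2

/-!
# Extended states of the uniform Anderson model on `𝔹 × ℤ^d` for disorder up to the order of the
connectivity

The operator is the one of the problem, `(Δ_ω u)(v) = -∑_{w ~ v} (u(w) - u(v)) + ω_v u(v)` with
`(ω_v)` iid uniform on `[-c, c]`; the graph is the Cartesian product `𝔹 × ℤ^d` of the
`(K + 1)`-regular tree `𝔹` (Bethe lattice) and the lattice `ℤ^d`. It contains `ℤ^d` as a factor and
is one-ended for `d ≥ 1`. More generally, any countable residually finite group `G` with elements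
`e₁, …, e_d` can take the place of `ℤ^d`.

**Theorem.** If `10¹⁷ (d + 1) (c + d + 1) ≤ K`, then almost surely the spectrum of `Δ_ω` in the
window `|E - (K + 1 + 2 d)| < (c + √K) / 20` is purely absolutely continuous, with almost
everywhere positive densities for all the unit vectors. (`K + 1 + 2 d`, the degree of the graph, is
the mean of the diagonal, hence the centre of the spectrum.) So the disorder `c` may be as large as a
constant (depending on `d`) times `K`: far beyond the norm `2 √K + 2 d` of the hopping operator,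
and up to a logarithm of the disorder at which all states of this model are localized (`c` of the
order of `K log K`, by the fractional moment method). For each `c > 0` and each `d`, the answer to
the question of the problem, asked for `𝔹 × ℤ^d` instead of `ℤ^d`, is hence no for all large `K`.

For weak disorder (`c ≤ ε √K`) one can perturb around the constant (free) fixed point of the
recursion; this is impossible here. The proof is an `L²` argument for the matrix recursion on the
Siegel upper half space around a *random* diagonal reference point: the reference point is built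
with the fixed point `σ` of the coherent potential equation
`σ = K ∫ (v - z - σ)⁻¹ dμ(v)` (`μ` uniform on `[-c, c]`), whose imaginary part is large
(`≥ 10⁸ (d + 1)`) precisely because `c, (d + 1)² ≪ K`; the fluctuations of the sum of the `K`
scalar resolvents around `σ` are controlled by exponential and inverse fourth moments. All the
bounds are uniform in the finite quotients of `G`.
-/

set_option autoImplicit false

open scoped BigOperators InnerProductSpace
open MeasureTheory

namespace Pool.Agent.Results.MP_562b47_mp.LinearDisorder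

/-- The vertices of the `(K + 1)`-regular tree: two copies of the rooted tree in which every vertex
`l : List (Fin K)` has the `K` children `j :: l`; the two roots are joined by an edge. -/
abbrev Tree (K : ℕ) : Type := Bool × List (Fin K)

/-- the `K` children of a vertex -/
def child {K : ℕ} (j : Fin K) (p : Tree K) : Tree K := (p.1, j :: p.2)

/-- the last neighbour of a vertex; the two roots are parents of each other -/
def parent {K : ℕ} : Tree K → Tree K
  | (s, []) => (!s, [])
  | (s, _ :: l) => (s, l)

/-- The operator `Δ_ω` on the product of the tree and the Cayley graph of the group `G` (written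
additively) with the generators `e_i`:
`(Δ_ω u)(p, x) = -∑_{q ~ p} (u(q, x) - u(p, x)) - ∑_i (u(p, x + e_i) - u(p, x))
  - ∑_i (u(p, x - e_i) - u(p, x)) + ω(p, x) u(p, x)`. -/
noncomputable def H {K d : ℕ} {G : Type} [AddGroup G] (e : Fin d → G)
    (ω : Tree K × G → ℝ) (u : Tree K × G → ℂ) (v : Tree K × G) : ℂ :=
  -((∑ j : Fin K, (u (child j v.1, v.2) - u v)) + (u (parent v.1, v.2) - u v) +
    ∑ i : Fin d, ((u (v.1, v.2 + e i) - u v) + (u (v.1, v.2 - e i) - u v))) + (ω v : ℂ) * u v

/-- the uniform law on `[-c, c]`, with density `(2 c)⁻¹ χ_{[-c, c]}` -/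
noncomputable def uniform (c : ℝ) : Measure ℝ :=
  ENNReal.ofReal (1 / (2 * c)) • volume.restrict (Set.Icc (-c) c)

/-- square summable functions -/
def SqSummable {V : Type} (u : V → ℂ) : Prop := Summable fun v => ‖u v‖ ^ 2

/-- `m` is the spectral measure of the vector `f`: a finite measure whose Borel transform
`∫ (E - z)⁻¹ dm(E)` is `⟨f, (A - z)⁻¹ f⟩` for all non-real `z` -/
def IsSpectralMeasure {V : Type} (A : (V → ℂ) → V → ℂ) (f : V → ℂ) (m : Measure ℝ) : Prop :=
  IsFiniteMeasure m ∧ ∀ z : ℂ, z.im ≠ 0 → ∃ u : V → ℂ, SqSummable u ∧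
    (∀ x, A u x - z * u x = f x) ∧ ∫ E : ℝ, ((E : ℂ) - z)⁻¹ ∂m = ∑' x, (starRingEnd ℂ) (f x) * u x

open Classical in
/-- the unit vector at `v` -/
noncomputable def unit {V : Type} (v : V) (x : V) : ℂ := if x = v then 1 else 0

/-- Extended states in `(E₁, E₂)`, for the uniform law on `[-c, c]`: almost surely, every square
summable `f` has a spectral measure; the restriction of every spectral measure to `(E₁, E₂)` is
absolutely continuous; and for the unit vectors it has a positive density almost everywhere in
`(E₁, E₂)`. -/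
def ExtendedStates {K d : ℕ} {G : Type} [AddGroup G] (e : Fin d → G) (c E1 E2 : ℝ) : Prop :=
  ∀ᵐ ω ∂(Measure.infinitePi fun _ : Tree K × G => uniform c),
    (∀ f : Tree K × G → ℂ, SqSummable f →
      ∃ m : Measure ℝ, IsSpectralMeasure (H e ω) f m) ∧
    (∀ (f : Tree K × G → ℂ) (m : Measure ℝ), SqSummable f →
      IsSpectralMeasure (H e ω) f m →
        ∀ A : Set ℝ, A ⊆ Set.Ioo E1 E2 → volume A = 0 → m A = 0) ∧
    (∀ (v : Tree K × G) (m : Measure ℝ), IsSpectralMeasure (H e ω) (unit v) m →
        ∀ A : Set ℝ, A ⊆ Set.Ioo E1 E2 → MeasurableSet A → m A = 0 → volume A = 0)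

/-- residually finite groups: the intersection of the normal subgroups of finite index is
trivial -/
def ResiduallyFinite (G : Type) [AddGroup G] : Prop :=
  ∀ g : G, g ≠ 0 → ∃ N : AddSubgroup G, N.Normal ∧ N.FiniteIndex ∧ g ∉ N

section link

open Pool.Agent.Y662.TR (LL lmk lmk_apply ll_inner ll_ext ll_summable dv dv_apply sub_coord
  smul_coord clp_eq)
open Pool.Agent.Helper32.BS (Tf Tf_apply Tf_sa Pf pw clp_pw rf_zd cf pa)
open Pool.Agent.Helper32.SD (main_sd unif unif_prob unif_ae)
open Pool.Agent.TH369.MU (SpM spm_exists)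
open Pool.Agent.TH369.AN (Rz rz_eq rz_uniq)

variable {K d : ℕ} {G : Type} [AddGroup G]

/-- the operator of the proof -/
noncomputable def TT (e : Fin d → G) (c : ℝ) (ω : Tree K × G → ℝ) :
    LL (Tree K × G) →L[ℂ] LL (Tree K × G) :=
  Tf K e ((K : ℝ) + 1 + 2 * d) 1 (1 * c) (pw 1 c ω)

theorem TT_sa (e : Fin d → G) (c : ℝ) (ω : Tree K × G → ℝ) :
    IsSelfAdjoint (TT e c ω) := Tf_sa _ _ _ _ _

theorem h_apply (e : Fin d → G) (c : ℝ) (ω : Tree K × G → ℝ) (hω : ∀ v, |ω v| ≤ c)
    (u : LL (Tree K × G)) (v : Tree K × G) :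
    H e ω (fun x => u x) v = TT e c ω u v := by
  unfold TT
  rw [Tf_apply, clp_pw]
  have h1 : |ω v| ≤ |c| := (hω v).trans (le_abs_self c)
  rw [clp_eq h1]
  unfold H
  have h3 : ∀ j : Fin K, child j v.1 = cf j v.1 := fun j => rfl
  have h4 : parent v.1 = pa v.1 := by
    obtain ⟨⟨s, l⟩, x⟩ := v
    cases l <;> rfl
  simp only [h3, h4, Finset.sum_sub_distrib, Finset.sum_add_distrib, Finset.sum_const,
    Finset.card_univ, Fintype.card_fin, nsmul_eq_mul]
  push_cast
  ring

theorem spm_of (e : Fin d → G) (c : ℝ) (ω : Tree K × G → ℝ) (hω : ∀ v, |ω v| ≤ c)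
    (f : Tree K × G → ℂ) (hf : SqSummable f) (m : Measure ℝ)
    (hm : IsSpectralMeasure (H e ω) f m) : SpM (TT e c ω) (lmk f hf) m := by
  refine ⟨hm.1, fun z hz => ?_⟩
  obtain ⟨u, hu, h1, h2⟩ := hm.2 z hz
  have h3 : lmk u hu = Rz (TT e c ω) z (lmk f hf) := by
    apply rz_uniq _ (TT_sa _ _ _) z hz
    apply ll_ext
    intro x
    rw [sub_coord, smul_coord, ← h_apply e c ω hω]
    exact h1 x
  rw [← h3, h2, ← (ll_inner (lmk f hf) (lmk u hu)).tsum_eq]
  rfl

theorem of_spm (e : Fin d → G) (c : ℝ) (ω : Tree K × G → ℝ) (hω : ∀ v, |ω v| ≤ c)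
    (f : Tree K × G → ℂ) (hf : SqSummable f) (m : Measure ℝ)
    (hm : SpM (TT e c ω) (lmk f hf) m) : IsSpectralMeasure (H e ω) f m := by
  refine ⟨hm.1, fun z hz => ?_⟩
  obtain ⟨u, hu⟩ : ∃ u, u = Rz (TT e c ω) z (lmk f hf) := ⟨_, rfl⟩
  refine ⟨fun x => u x, ll_summable u, fun x => ?_, ?_⟩
  · rw [h_apply e c ω hω]
    have h1 := rz_eq (TT e c ω) (TT_sa _ _ _) z hz (lmk f hf)
    rw [← hu] at h1
    have h2 : (TT e c ω u - z • u : LL (Tree K × G)) x = (lmk f hf) x := by
      rw [h1]
    rw [sub_coord, smul_coord] at h2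
    exact h2
  · rw [← hm.2 z hz, ← hu, ← (ll_inner (lmk f hf) u).tsum_eq]
    rfl

theorem main_group [Countable G] (hG : ResiduallyFinite G) (e : Fin d → G) {c : ℝ} (hc : 0 < c)
    (h : 10 ^ 17 * ((d : ℝ) + 1) * (c + ((d : ℝ) + 1)) ≤ K) :
    ExtendedStates (K := K) e c ((K + 1 + 2 * d) - (c + Real.sqrt K) / 20)
      ((K + 1 + 2 * d) + (c + Real.sqrt K) / 20) := by
  have hpr := unif_prob hc
  have hun : uniform c = unif c := rfl
  unfold ExtendedStates
  rw [hun]
  have hbd : ∀ᵐ ω ∂(Measure.infinitePi fun _ : Tree K × G => unif c), ∀ v, |ω v| ≤ c := by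
    rw [ae_all_iff]
    intro v
    have h1 := (measurePreserving_eval_infinitePi
      (fun _ : Tree K × G => unif c) v).quasiMeasurePreserving
    exact h1.ae (unif_ae hc)
  have hm := main_sd (K := K) hG e hc h (a := (K : ℝ) + 1 + 2 * d) le_rfl le_rfl
  filter_upwards [hbd, hm] with ω hω hmain
  obtain ⟨h3, h4⟩ := hmain
  refine ⟨fun f hf => ?_, fun f m hf hm A hA hA0 => ?_, fun v m hm A hA hAm hA0 => ?_⟩
  · obtain ⟨m, hm, -⟩ := spm_exists (TT e c ω) (TT_sa _ _ _) (lmk f hf)
    exact ⟨m, of_spm e c ω hω f hf m hm⟩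
  · exact h3 _ m (spm_of e c ω hω f hf m hm) A hA hA0
  · have hs : SqSummable (unit v) := by
      have h5 := ll_summable (dv v)
      refine h5.congr fun x => ?_
      rw [dv_apply]
      rfl
    have h6 := spm_of e c ω hω (unit v) hs m hm
    have h7 : lmk (unit v) hs = dv v := by
      apply ll_ext
      intro x
      rw [dv_apply]
      rfl
    rw [h7] at h6
    exact h4 v m h6 A hA hAm hA0

end link

/-- `ℤ^d` is residually finite. -/
theorem zd_residuallyFinite (d : ℕ) : ResiduallyFinite (Fin d → ℤ) :=
  Pool.Agent.Helper32.BS.rf_zd d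

/-- **Theorem.** Let `G` be a countable residually finite group (for example `ℤ^d`, with the
standard generators `e_i = Pi.single i 1`), `e₁, …, e_d ∈ G`, `c > 0` and
`10¹⁷ (d + 1) (c + d + 1) ≤ K`. Then the Anderson model `Δ_ω` on the product of the
`(K + 1)`-regular tree and `G`, with an iid potential which is uniform on `[-c, c]`, has extended
states (purely absolutely continuous spectrum, with positive densities) in the window
`|E - (K + 1 + 2 d)| < (c + √K) / 20`. -/
theorem result {G : Type} [AddGroup G] [Countable G] (hG : ResiduallyFinite G) {K d : ℕ}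
    (e : Fin d → G) {c : ℝ} (hc : 0 < c)
    (h : 10 ^ 17 * ((d : ℝ) + 1) * (c + ((d : ℝ) + 1)) ≤ K) :
    ExtendedStates (K := K) e c ((K + 1 + 2 * d) - (c + Real.sqrt K) / 20)
      ((K + 1 + 2 * d) + (c + Real.sqrt K) / 20) :=
  main_group hG e hc h

end Pool.Agent.Results.MP_562b47_mp.LinearDisorder
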