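import Pool.Agent.Helper26.Sw.Wv
import Pool.Graph.R_pool_sql_team_seeded_b3bd081e.H541R3.AND.Model

/-!
# The uniform Anderson model has no stationary waves and no Bloch waves, at any disorder

`Δ_ω = -Δ + ω` on `ℤ^d`, `d ≥ 1`, `ω_j` iid uniform on `[-c, c]`, any `c > 0`.

* For every quasi-momentum `k` (not only for almost every one), and even with additional randomness
  independent of `ω`, no nonzero random field `u(x) = e^{ik·x} φ(T_x ω, τ_x θ)` with finite second
  moment solves `Δ_ω u = E u`. In other words, no fibre `H(k)` of the stationary Floquet-Bloch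
  decomposition has an eigenvalue.
* Loss of coherence, uniformly in the quasi-momentum: the correlations of the random wave
  `e^{-itΔ_ω} u` with any random variable of finite second moment tend to zero in mean square, at a
  rate which is uniform in `k`. In particular the mean of `e^{-itΔ_ω} e^{ik·x}` tends to zero.
-/

set_option autoImplicit false

open MeasureTheory Filter Topology ProbabilityTheory
open scoped BigOperators ENNReal NNReal ComplexConjugate

namespace Pool.Agent.Results.MP_562b47_mp.NoStationaryWaves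

/-- the operator of the problem, `(Δ_ω u)(j) = -∑_{|n|=1} (u(j+n) - u(j)) + ω_j u(j)` (the unit
vectors `n` are `± e_i`), for an arbitrary function `u : ℤ^d → ℂ` -/
noncomputable def H {d : ℕ} (ω : (Fin d → ℤ) → ℝ) (u : (Fin d → ℤ) → ℂ) (j : Fin d → ℤ) : ℂ :=
  -(∑ i : Fin d, ((u (j + Pi.single i 1) - u j) + (u (j - Pi.single i 1) - u j))) + (ω j : ℂ) * u j

/-- the uniform law on `[-c, c]` -/
noncomputable def unif (c : ℝ) : Measure ℝ :=
  ENNReal.ofReal (1 / (2 * c)) • volume.restrict (Set.Icc (-c) c)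

/-- the law of iid variables with law `μ` -/
noncomputable def iid (d : ℕ) (μ : Measure ℝ) : Measure ((Fin d → ℤ) → ℝ) :=
  Measure.infinitePi fun _ => μ

/-- a measure preserving action `τ` of `ℤ^d` (stationary additional randomness) -/
structure IsAction {d : ℕ} {Θ : Type} [MeasurableSpace Θ] (m : Measure Θ)
    (τ : (Fin d → ℤ) → Θ → Θ) : Prop where
  measurePreserving : ∀ x, MeasurePreserving (τ x) m m
  zero : ∀ θ, τ 0 θ = θ
  add : ∀ x y θ, τ (x + y) θ = τ x (τ y θ)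

/-- the plane wave `e^{ik·x}` -/
noncomputable def plane {d : ℕ} (k : Fin d → ℝ) (x : Fin d → ℤ) : ℂ :=
  Complex.exp (Complex.I * ((∑ i, k i * (x i : ℝ) : ℝ) : ℂ))

/-- the random wave with quasi-momentum `k` and profile `φ`:
`u(x) = e^{ik·x} φ(T_x ω, τ_x θ)`, where `(T_x ω)_y = ω_{y+x}` and `p = (ω, θ)` -/
noncomputable def wave {d : ℕ} {Θ : Type} (τ : (Fin d → ℤ) → Θ → Θ) (k : Fin d → ℝ)
    (φ : ((Fin d → ℤ) → ℝ) × Θ → ℂ) (p : ((Fin d → ℤ) → ℝ) × Θ) (x : Fin d → ℤ) : ℂ :=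
  plane k x * φ (fun y => p.1 (y + x), τ x p.2)

/-- `(e^{-itH} u)(x)` for bounded `u`, by the exponential series -/
noncomputable def evolve {d : ℕ} (ω : (Fin d → ℤ) → ℝ) (u : (Fin d → ℤ) → ℂ) (t : ℝ)
    (x : Fin d → ℤ) : ℂ :=
  ∑' n : ℕ, ((-Complex.I * t) ^ n / (n.factorial : ℂ)) * ((H ω)^[n] u) x

open Pool.Agent.H541R3.AND (Model.aff Model.aff_apply Model.law Model.hop_eq)
open Pool.Agent.H5R2.NB (PP hopf Site)
open Pool.Agent.Helper26.Sw

theorem unif_prob {c : ℝ} (hc : 0 < c) : IsProbabilityMeasure (unif c) := by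
  refine ⟨?_⟩
  unfold unif
  rw [Measure.smul_apply, Measure.restrict_apply_univ, Real.volume_Icc, smul_eq_mul,
    ← ENNReal.ofReal_mul (by positivity)]
  rw [show 1 / (2 * c) * (c - -c) = 1 by field_simp; ring, ENNReal.ofReal_one]

/-- the shifted law -/
noncomputable abbrev μ' (d : ℕ) (c : ℝ) : Measure ℝ := (unif c).map fun r : ℝ => 1 * r + 2 * d

theorem unif_single (c x : ℝ) : unif c {x} = 0 := by
  unfold unif
  rw [Measure.smul_apply, measure_singleton, smul_zero]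

theorem μ'_single (d : ℕ) (c : ℝ) : NullSingletonClass (μ' d c) := by
  refine ⟨fun x => ?_⟩
  rw [Measure.map_apply (by fun_prop) (measurableSet_singleton x)]
  have : (fun r : ℝ => 1 * r + 2 * (d : ℝ)) ⁻¹' {x} = {x - 2 * d} := by
    ext r
    simp only [Set.mem_preimage, Set.mem_singleton_iff, one_mul]
    constructor
    · intro h; linarith
    · intro h; rw [h]; ring
  rw [this, unif_single]

theorem unif_ball {c s ρ : ℝ} (hc : 0 < c) (h1 : -c ≤ s - ρ) (h2 : s + ρ ≤ c) (hρ : 0 < ρ) :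
    unif c (Metric.ball s ρ) = ENNReal.ofReal (ρ / c) := by
  unfold unif
  have h3 : Metric.ball s ρ ∩ Set.Icc (-c) c = Metric.ball s ρ := by
    rw [Set.inter_eq_left]
    intro x hx
    rw [Real.ball_eq_Ioo] at hx
    exact ⟨by linarith [hx.1], by linarith [hx.2]⟩
  rw [Measure.smul_apply, Measure.restrict_apply measurableSet_ball, h3, Real.volume_ball,
    smul_eq_mul, ← ENNReal.ofReal_mul (by positivity)]
  congr 1
  field_simp

theorem μ'_law (d : ℕ) {c : ℝ} (hc : 0 < c) : Law (μ' d c) (2 * d - c) (2 * d + c) where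
  ab := by linarith
  supp := by
    refine (ae_map_iff (by fun_prop) measurableSet_Icc).2 ?_
    unfold unif
    refine Measure.ae_smul_measure ?_ _
    filter_upwards [ae_restrict_mem measurableSet_Icc] with r hr
    rw [one_mul]
    exact ⟨by linarith [hr.1], by linarith [hr.2]⟩
  fat := by
    intro t ht C
    set s : ℝ := t - 2 * d with hs
    have hs1 : -c < s := by rw [hs]; linarith [ht.1]
    have hs2 : s < c := by rw [hs]; linarith [ht.2]
    set ρ : ℝ := min (min (c - s) (s + c)) (1 / (2 * c * (|C| + 1))) with hρ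
    have hρ0 : 0 < ρ := by
      rw [hρ]
      refine lt_min (lt_min (by linarith) (by linarith)) (by positivity)
    have hρ1 : ρ ≤ c - s := (min_le_left _ _).trans (min_le_left _ _)
    have hρ2 : ρ ≤ s + c := (min_le_left _ _).trans (min_le_right _ _)
    have hρ3 : ρ ≤ 1 / (2 * c * (|C| + 1)) := min_le_right _ _
    refine ⟨ρ, hρ0, ?_⟩
    have e : (fun r : ℝ => 1 * r + 2 * (d : ℝ)) ⁻¹' Metric.ball t ρ = Metric.ball s ρ := by
      ext r
      simp only [Set.mem_preimage, Metric.mem_ball, Real.dist_eq, one_mul]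
      rw [show r + 2 * (d : ℝ) - t = r - s by rw [hs]; ring]
    rw [Measure.map_apply (by fun_prop) measurableSet_ball, e,
      unif_ball hc (by linarith) (by linarith) hρ0]
    refine (ENNReal.ofReal_lt_ofReal_iff (by positivity)).2 ?_
    rw [le_div_iff₀ (by positivity)] at hρ3
    rw [lt_div_iff₀ hc]
    have h1 : C ≤ |C| := le_abs_self C
    have h2 : 0 ≤ |C| := abs_nonneg C
    have h3 : C * ρ ^ 2 * c ≤ |C| * ρ ^ 2 * c := by gcongr
    have h4 : |C| * ρ ^ 2 * c = ρ * (ρ * c * |C|) := by ring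
    have h5 : ρ * c * |C| ≤ 1 / 2 := by nlinarith
    have h6 : ρ * (ρ * c * |C|) ≤ ρ * (1 / 2) := by gcongr
    linarith

section transfer

variable {d : ℕ} {c : ℝ} {Θ : Type}

/-- the change of variables -/
noncomputable abbrev aff (d : ℕ) : ((Fin d → ℤ) → ℝ) ≃ᵐ ((Fin d → ℤ) → ℝ) :=
  Model.aff d 1 one_ne_zero

theorem wave_eq (τ : (Fin d → ℤ) → Θ → Θ) (k : Fin d → ℝ) (φ : ((Fin d → ℤ) → ℝ) × Θ → ℂ)
    (p : ((Fin d → ℤ) → ℝ) × Θ) :
    fk τ k (fun q => φ ((aff d).symm q.1, q.2)) (aff d p.1, p.2) = wave τ k φ p := by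
  funext x
  unfold fk wave
  have e : sX τ x (aff d p.1, p.2) = (aff d (fun y => p.1 (y + x)), τ x p.2) := rfl
  rw [e]
  simp only [MeasurableEquiv.symm_apply_apply]
  rfl

theorem H_eq (ω : (Fin d → ℤ) → ℝ) (u : (Fin d → ℤ) → ℂ) (x : Fin d → ℤ) :
    hopf (-1) u x + ((aff d ω x : ℝ) : ℂ) * u x = H ω u x := by
  have h := Model.hop_eq 1 ω u x
  have e : aff d ω x = 1 * ω x + 2 * d := rfl
  rw [e, h]
  unfold Pool.Agent.H541R3.AND.Model.H H
  rw [one_mul]

theorem Hv_eq {R : ℝ} {ω : (Fin d → ℤ) → ℝ} (h : ∀ x, |aff d ω x| ≤ R) :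
    Hv (-1) R (aff d ω) = H ω := by
  funext u x
  unfold Hv
  rw [cl_eq h, H_eq]

variable [MeasurableSpace Θ] {m : Measure Θ} [IsProbabilityMeasure m]
  {τ : (Fin d → ℤ) → Θ → Θ}

/-- the change of variables, with the additional randomness -/
noncomputable abbrev affΘ (d : ℕ) (Θ : Type) [MeasurableSpace Θ] :
    ((Fin d → ℤ) → ℝ) × Θ ≃ᵐ ((Fin d → ℤ) → ℝ) × Θ :=
  MeasurableEquiv.prodCongr (aff d) (MeasurableEquiv.refl Θ)

theorem act (hτ : IsAction m τ) : Act m τ := ⟨hτ.measurePreserving, hτ.zero, hτ.add⟩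

theorem mp_aff (hc : 0 < c) : ∃ _ : IsProbabilityMeasure (μ' d c), ∀ (m : Measure Θ)
    [IsProbabilityMeasure m], MeasurePreserving (affΘ d Θ) ((iid d (unif c)).prod m)
      ((PP d (μ' d c)).prod m) := by
  have hp := unif_prob hc
  obtain ⟨hpm, hmap⟩ := Model.law d 1 one_ne_zero (unif c)
  refine ⟨hpm, fun m _ => ?_⟩
  have hpi : IsProbabilityMeasure (iid d (unif c)) := by unfold iid; infer_instance
  have h1 : MeasurePreserving (aff d) (iid d (unif c)) (PP d (μ' d c)) :=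
    ⟨(aff d).measurable, hmap⟩
  exact h1.prod (MeasurePreserving.id m)

end transfer

/-- **Theorem.** Let `d ≥ 1`, `c > 0`, `ω_j` iid uniform on `[-c, c]`, `P` their law, and let `ℤ^d`
act on a probability space `(Θ, m)` by measure preserving maps `τ_x`.

1. Let `k ∈ ℝ^d`, `E ∈ ℂ` and `φ ∈ L²(P ⊗ m)`. If almost surely `u(x) = e^{ik·x} φ(T_x ω, τ_x θ)`
   satisfies `Δ_ω u = E u`, then `φ = 0` almost surely.
2. For `φ ∈ L²(P ⊗ m)`, bounded measurable `g` and `u(x) = e^{ik·x} g(T_x ω, τ_x θ)`,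
   `T⁻¹ ∫_0^T |E[conj φ · (e^{-itΔ_ω} u)(0)]|² dt → 0`, uniformly in `k ∈ ℝ^d`.
3. In particular `T⁻¹ ∫_0^T |E[(e^{-itΔ_ω} e^{ik·x})(0)]|² dt → 0`, uniformly in `k ∈ ℝ^d`. -/
theorem result (d : ℕ) (hd : 0 < d) (c : ℝ) (hc : 0 < c) :
    (∀ {Θ : Type} [MeasurableSpace Θ] (m : Measure Θ) [IsProbabilityMeasure m]
      (τ : (Fin d → ℤ) → Θ → Θ), IsAction m τ →
      (∀ (k : Fin d → ℝ) (E : ℂ) (φ : ((Fin d → ℤ) → ℝ) × Θ → ℂ),
        MemLp φ 2 ((iid d (unif c)).prod m) →
        (∀ᵐ p ∂((iid d (unif c)).prod m), ∀ x, H p.1 (wave τ k φ p) x = E * wave τ k φ p x) →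
        ∀ᵐ p ∂((iid d (unif c)).prod m), φ p = 0) ∧
      (∀ φ g : ((Fin d → ℤ) → ℝ) × Θ → ℂ, MemLp φ 2 ((iid d (unif c)).prod m) →
        Measurable g → (∃ M : ℝ, ∀ p, ‖g p‖ ≤ M) → ∀ ε : ℝ, 0 < ε → ∃ T₀ : ℝ, 0 < T₀ ∧
        ∀ T, T₀ ≤ T → ∀ k : Fin d → ℝ, T⁻¹ * ∫ t in (0 : ℝ)..T,
          ‖∫ p, conj (φ p) * evolve p.1 (wave τ k g p) t 0 ∂((iid d (unif c)).prod m)‖ ^ 2 ≤ ε)) ∧
    (∀ ε : ℝ, 0 < ε → ∃ T₀ : ℝ, 0 < T₀ ∧ ∀ T, T₀ ≤ T → ∀ k : Fin d → ℝ,
      T⁻¹ * ∫ t in (0 : ℝ)..T, ‖∫ ω, evolve ω (plane k) t 0 ∂(iid d (unif c))‖ ^ 2 ≤ ε) := by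
  have hp := unif_prob hc
  have hpi : IsProbabilityMeasure (iid d (unif c)) := by unfold iid; infer_instance
  have hL := μ'_law d hc
  have hns := μ'_single d c
  have hR : ∀ x : ℝ, x ∈ Set.Icc (2 * (d : ℝ) - c) (2 * d + c) → |x| ≤ 2 * d + c := by
    intro x hx
    have : (0 : ℝ) ≤ d := Nat.cast_nonneg d
    rw [abs_le]
    exact ⟨by linarith [hx.1], hx.2⟩
  have key : (∀ {Θ : Type} [MeasurableSpace Θ] (m : Measure Θ) [IsProbabilityMeasure m]
      (τ : (Fin d → ℤ) → Θ → Θ), IsAction m τ →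
      (∀ (k : Fin d → ℝ) (E : ℂ) (φ : ((Fin d → ℤ) → ℝ) × Θ → ℂ),
        MemLp φ 2 ((iid d (unif c)).prod m) →
        (∀ᵐ p ∂((iid d (unif c)).prod m), ∀ x, H p.1 (wave τ k φ p) x = E * wave τ k φ p x) →
        ∀ᵐ p ∂((iid d (unif c)).prod m), φ p = 0) ∧
      (∀ φ g : ((Fin d → ℤ) → ℝ) × Θ → ℂ, MemLp φ 2 ((iid d (unif c)).prod m) →
        Measurable g → (∃ M : ℝ, ∀ p, ‖g p‖ ≤ M) → ∀ ε : ℝ, 0 < ε → ∃ T₀ : ℝ, 0 < T₀ ∧
        ∀ T, T₀ ≤ T → ∀ k : Fin d → ℝ, T⁻¹ * ∫ t in (0 : ℝ)..T,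
          ‖∫ p, conj (φ p) * evolve p.1 (wave τ k g p) t 0 ∂((iid d (unif c)).prod m)‖ ^ 2 ≤
            ε)) := by
    intro Θ _ m _ τ hτ
    obtain ⟨hpm, hmp'⟩ := mp_aff (d := d) (Θ := Θ) hc
    have hmp := hmp' m
    have hsy : MeasurePreserving (affΘ d Θ).symm ((PP d (μ' d c)).prod m)
        ((iid d (unif c)).prod m) := hmp.symm
    have hA := act hτ
    refine ⟨fun k E φ hφ heq => ?_, fun φ g hφ hg hgM ε hε => ?_⟩
    · set ψ : ((Fin d → ℤ) → ℝ) × Θ → ℂ := fun q => φ ((aff d).symm q.1, q.2) with hψ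
      have hψL : MemLp ψ 2 ((PP d (μ' d c)).prod m) := hφ.comp_measurePreserving hsy
      have h1 := mainK hA hL hd (c := -1) (by norm_num) k E hψL (by
        filter_upwards [hsy.quasiMeasurePreserving.ae heq] with q hq
        obtain ⟨p, rfl⟩ : ∃ p, affΘ d Θ p = q := ⟨(affΘ d Θ).symm q, (affΘ d Θ).apply_symm_apply q⟩
        rw [(affΘ d Θ).symm_apply_apply] at hq
        have e1 := hq 0
        have e2 : fk τ k ψ (affΘ d Θ p) = wave τ k φ p := wave_eq τ k φ p
        have e3 : ψ (affΘ d Θ p) = wave τ k φ p 0 := by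
          rw [← e2]
          unfold fk
          rw [ph_zero, one_mul, sX_zero hA.zero]
        rw [← H_eq] at e1
        rw [e2, e3]
        exact e1)
      filter_upwards [hmp.quasiMeasurePreserving.ae h1] with p hp
      have e4 : ψ (affΘ d Θ p) = φ p := by
        show φ ((aff d).symm (aff d p.1), p.2) = φ p
        rw [(aff d).symm_apply_apply]
      rwa [e4] at hp
    · obtain ⟨M, hM⟩ := hgM
      set ψ : ((Fin d → ℤ) → ℝ) × Θ → ℂ := fun q => φ ((aff d).symm q.1, q.2) with hψ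
      set h : ((Fin d → ℤ) → ℝ) × Θ → ℂ := fun q => g ((aff d).symm q.1, q.2) with hh
      have hψL : MemLp ψ 2 ((PP d (μ' d c)).prod m) := hφ.comp_measurePreserving hsy
      have hgL : MemLp g 2 ((iid d (unif c)).prod m) :=
        MemLp.of_bound hg.aestronglyMeasurable M (Eventually.of_forall hM)
      have hhL : MemLp h 2 ((PP d (μ' d c)).prod m) := hgL.comp_measurePreserving hsy
      have hRR : ∀ᵐ s ∂(μ' d c), |s| ≤ 2 * d + c := hL.supp.mono fun s hs => hR s hs
      obtain ⟨T₀, hT₀, H1⟩ := decay hA hL hd (c := -1) (by norm_num) hRR hψL hhL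
        (M := |M|) (abs_nonneg M) (fun p => (hM _).trans (le_abs_self M)) hε
      refine ⟨T₀, hT₀, fun T hT k => ?_⟩
      have hT0 : 0 < T := hT₀.trans_le hT
      have h1 := H1 T hT k
      have h2 : ∀ t : ℝ, ∫ q, conj (ψ q) * wv (-1) (2 * d + c) q.1 (fk τ k h q) t
          ∂((PP d (μ' d c)).prod m) =
          ∫ p, conj (φ p) * evolve p.1 (wave τ k g p) t 0 ∂((iid d (unif c)).prod m) := by
        intro t
        rw [← hmp.integral_comp' (fun q => conj (ψ q) *
          wv (-1) (2 * d + c) q.1 (fk τ k h q) t)]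
        have hb : ∀ᵐ p ∂((iid d (unif c)).prod m), ∀ x, |aff d p.1 x| ≤ 2 * d + c := by
          rw [ae_all_iff]
          intro x
          have h3 : MeasurePreserving (fun q : ((Fin d → ℤ) → ℝ) × Θ => q.1 x)
              ((PP d (μ' d c)).prod m) (μ' d c) :=
            (measurePreserving_eval_infinitePi (fun _ : Site d => μ' d c) x).comp
              measurePreserving_fst
          exact (h3.comp hmp).quasiMeasurePreserving.ae hRR
        refine integral_congr_ae ?_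
        filter_upwards [hb] with p hp
        have e4 : ψ (affΘ d Θ p) = φ p := by
          show φ ((aff d).symm (aff d p.1), p.2) = φ p
          rw [(aff d).symm_apply_apply]
        have e5 : fk τ k h (affΘ d Θ p) = wave τ k g p := wave_eq τ k g p
        rw [e4, e5]
        congr 1
        unfold wv evolve
        have e6 : (affΘ d Θ p).1 = aff d p.1 := rfl
        rw [e6, Hv_eq hp]
      simp only [h2] at h1
      rw [inv_mul_le_iff₀ hT0, mul_comm]
      exact h1
  refine ⟨key, fun ε hε => ?_⟩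
  have h1 := (key (Measure.dirac () : Measure Unit) (fun _ θ => θ)
    ⟨fun _ => MeasurePreserving.id _, fun _ => rfl, fun _ _ _ => rfl⟩).2 (fun _ => 1) (fun _ => 1)
    (memLp_const 1) measurable_const ⟨1, fun _ => by simp⟩ ε hε
  obtain ⟨T₀, hT₀, H1⟩ := h1
  refine ⟨T₀, hT₀, fun T hT k => ?_⟩
  have h2 := H1 T hT k
  have h3 : ∀ t : ℝ, ∫ p, conj (1 : ℂ) * evolve p.1 (wave (fun _ θ => θ) k (fun _ => 1) p) t 0
      ∂((iid d (unif c)).prod (Measure.dirac () : Measure Unit)) =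
      ∫ ω, evolve ω (plane k) t 0 ∂(iid d (unif c)) := by
    intro t
    have e1 : (fun p : ((Fin d → ℤ) → ℝ) × Unit => conj (1 : ℂ) *
        evolve p.1 (wave (fun _ θ => θ) k (fun _ => 1) p) t 0) =
        fun p => (fun ω => evolve ω (plane k) t 0) p.1 := by
      funext p
      rw [map_one, one_mul]
      congr 1
      funext x
      unfold wave
      rw [mul_one]
    rw [e1]
    refine (integral_fun_fst (fun ω => evolve ω (plane k) t 0)).trans ?_
    simp
  simp only [h3] at h2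
  exact h2

end Pool.Agent.Results.MP_562b47_mp.NoStationaryWaves
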