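import Pool.Agent.Helper26.Rg.Lw

/-!
# Uniform Anderson Hamiltonians with different parameters in the same disorder are disjoint

`H_{τ,λ,ν} = -τΔ + λ ω + ν` on `ℤ^d`, `d ≥ 1`, with iid `ω_j` uniform on `[-c, c]`, any `c > 0`; the
operator of the problem is `Δ_ω = H_{1,1,0}`. Let `(τ, λ, ν)`, `λ ≠ 0`, and `(τ', λ', ν')` be two
parameter triples, and let `H`, `H'` be the two Hamiltonians in the same realisation `ω`. The only
trivial coincidences are `H' = H` and `λ' = λ, τ' = -τ, ν' = ν + 4dτ`, where the gauge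
transformation `(-1)^{|x|}` maps `H` to `H'`. In all other cases, for all bounded covariant operators
`A_ω`, the time averages of `e^{isH'} A e^{-isH}` tend to zero in mean square on all random states;
almost surely `e^{itH'} A e^{-itH} u` has no limit as `t → ∞` or `t → -∞`, apart from zero, for all
`u`; no nonzero bounded covariant operators satisfy `A e^{-itH} = e^{-itH'} A`. The case
`H' = H + ν`, `ν ≠ 0`: the Heisenberg evolution has no eigenoperators at nonzero frequency among the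
bounded covariant operators.
-/

set_option autoImplicit false

open MeasureTheory Filter Topology ProbabilityTheory
open scoped BigOperators ENNReal NNReal

namespace Pool.Agent.Results.MP_562b47_mp.ParameterRigidity

/-- `ℓ²(ℤ^d)` -/
abbrev L2 (d : ℕ) : Type := lp (fun _ : Fin d → ℤ => ℂ) 2

/-- `((-τΔ + λ V_ω + ν) u)(x)` for an arbitrary function `u : ℤ^d → ℂ` -/
noncomputable def H {d : ℕ} (tau lam nu : ℝ) (ω : (Fin d → ℤ) → ℝ) (u : (Fin d → ℤ) → ℂ)
    (x : Fin d → ℤ) : ℂ :=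
  -(tau : ℂ) * (∑ i : Fin d, ((u (x + Pi.single i 1) - u x) + (u (x - Pi.single i 1) - u x))) +
    ((lam * ω x + nu : ℝ) : ℂ) * u x

/-- the uniform law on `[-c, c]` -/
noncomputable def unif (c : ℝ) : Measure ℝ :=
  ENNReal.ofReal (1 / (2 * c)) • volume.restrict (Set.Icc (-c) c)

/-- the law of iid variables with law `μ` -/
noncomputable def iid (d : ℕ) (μ : Measure ℝ) : Measure ((Fin d → ℤ) → ℝ) :=
  Measure.infinitePi fun _ => μ

/-- `U t = e^{-itH}` -/
structure IsPropagator {d : ℕ} (tau lam nu : ℝ) (ω : (Fin d → ℤ) → ℝ) (U : ℝ → L2 d → L2 d) :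
    Prop where
  zero : ∀ u, U 0 u = u
  norm : ∀ t u, ‖U t u‖ = ‖u‖
  schrodinger : ∀ u t x, HasDerivAt (fun s => (U s u) x)
    (-Complex.I * H tau lam nu ω (fun y => (U t u) y) x) t

/-- covariant under all translations at the potential `ω`: if `w = u(· + z)` then
`A_{ω(· + z)} w = (A_ω u)(· + z)` -/
def CovariantAt {d : ℕ} (A : ((Fin d → ℤ) → ℝ) → L2 d → L2 d) (ω : (Fin d → ℤ) → ℝ) : Prop :=
  ∀ (z : Fin d → ℤ) (u w : L2 d), (∀ x, w x = u (x + z)) →
    ∀ x, (A (fun y => ω (y + z)) w) x = (A ω u) (x + z)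

/-- bounded linear operators `A_ω` on `ℓ²(ℤ^d)`, bounded uniformly in `ω`, measurable in `ω`, and
almost surely covariant under translations -/
structure IsField {d : ℕ} (P : Measure ((Fin d → ℤ) → ℝ))
    (A : ((Fin d → ℤ) → ℝ) → L2 d → L2 d) : Prop where
  linear : ∀ (ω : (Fin d → ℤ) → ℝ) (a : ℂ) (u w : L2 d), A ω (a • u + w) = a • A ω u + A ω w
  bounded : ∃ M : ℝ, ∀ (ω : (Fin d → ℤ) → ℝ) (u : L2 d), ‖A ω u‖ ≤ M * ‖u‖
  measurable : ∀ (u : L2 d) (x : Fin d → ℤ), Measurable fun ω => (A ω u) x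
  covariant : ∀ᵐ ω ∂P, CovariantAt A ω

open Pool.Agent.H5R2 Pool.Agent.Helper26.Nb Pool.Agent.Helper26.Cm Pool.Agent.Helper26.Dj
  Pool.Agent.Helper26.Rg

theorem hop_eq {d : ℕ} (tau lam nu : ℝ) (ω : (Fin d → ℤ) → ℝ) (u : (Fin d → ℤ) → ℂ)
    (x : Fin d → ℤ) :
    NB.hopf (-tau) u x + ((af lam (2 * d * tau + nu) (ω x) : ℝ) : ℂ) * u x =
      H tau lam nu ω u x := by
  unfold NB.hopf H af
  have : ∑ i : Fin d, ((u (x + Pi.single i 1) - u x) + (u (x - Pi.single i 1) - u x)) =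
      ∑ i : Fin d, (u (x + Pi.single i 1) + u (x - Pi.single i 1)) - 2 * d * u x := by
    have h : ∀ i : Fin d, (u (x + Pi.single i 1) - u x) + (u (x - Pi.single i 1) - u x) =
        (u (x + Pi.single i 1) + u (x - Pi.single i 1)) - 2 * u x := fun i => by ring
    simp only [h, Finset.sum_sub_distrib, Finset.sum_const, Finset.card_univ, Fintype.card_fin,
      nsmul_eq_mul]
    ring
  rw [this]
  push_cast
  ring

theorem sol_of_prop {d : ℕ} {tau lam nu : ℝ} {ω : (Fin d → ℤ) → ℝ} {U : ℝ → L2 d → L2 d}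
    (hU : IsPropagator tau lam nu ω U) (u : L2 d) :
    NB.IsSol (-tau) (pot (af lam (2 * d * tau + nu)) ω) (fun t => U t u) (fun _ => 0) := by
  refine ⟨fun T => ⟨‖u‖, fun t _ => (hU.norm t u).le⟩, fun t x => ?_⟩
  have h := hU.schrodinger u t x
  refine h.congr_deriv ?_
  rw [← hop_eq]
  simp [pot]

theorem prop_of_grp {d : ℕ} {tau lam nu : ℝ} {ω : (Fin d → ℤ) → ℝ}
    {W : NB.UG (NB.L2 (NB.Site d))}
    (hW : NB.IsGrp (-tau) (pot (af lam (2 * d * tau + nu)) ω) W) :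
    IsPropagator tau lam nu ω (fun t u => W.U t u) := by
  refine ⟨W.zero', W.norm', fun u t x => ?_⟩
  have h := (hW u).2 t x
  refine h.congr_deriv ?_
  rw [← hop_eq]
  simp [pot]

theorem prop_eq {d : ℕ} {tau lam nu : ℝ} {ω : (Fin d → ℤ) → ℝ} {W : NB.UG (NB.L2 (NB.Site d))}
    (hW : NB.IsGrp (-tau) (pot (af lam (2 * d * tau + nu)) ω) W) {U : ℝ → L2 d → L2 d}
    (hU : IsPropagator tau lam nu ω U) (t : ℝ) (u : L2 d) : U t u = W.U t u := by
  have h := NB.ALL.a_UN d (-tau) _ W hW (fun t => U t u) (fun _ => 0)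
    continuous_const (sol_of_prop hU u) t
  simpa [hU.zero u] using h

/-- linear maps -/
noncomputable def lin {d : ℕ} (A : L2 d → L2 d)
    (hl : ∀ (a : ℂ) (u w : L2 d), A (a • u + w) = a • A u + A w)
    (hb : ∃ M : ℝ, ∀ u, ‖A u‖ ≤ M * ‖u‖) : L2 d →L[ℂ] L2 d :=
  LinearMap.mkContinuousOfExistsBound
    { toFun := A
      map_add' := fun u w => by
        have h := hl 1 u w
        rwa [one_smul, one_smul] at h
      map_smul' := fun c u => by
        have h0 : A 0 = 0 := by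
          have h := hl (-1) 0 0
          simpa using h
        have h := hl c u 0
        rwa [add_zero, h0, add_zero] at h } hb

/-- the case of a general law -/
theorem general (d : ℕ) (hd : 0 < d) (μ : Measure ℝ) [IsProbabilityMeasure μ] (hμ : μ ≪ volume)
    (R : ℝ) (hR : ∀ᵐ r ∂μ, |r| ≤ R) :
    (∀ (tau lam nu : ℝ) (ω : (Fin d → ℤ) → ℝ),
      ∃! U : ℝ → L2 d → L2 d, IsPropagator tau lam nu ω U) ∧
    ∀ tau lam nu tau' lam' nu' : ℝ, lam ≠ 0 →
      ¬(lam' = lam ∧ |tau'| = |tau| ∧ 2 * d * tau' + nu' = 2 * d * tau + nu) →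
    ∀ U U' : ((Fin d → ℤ) → ℝ) → ℝ → L2 d → L2 d,
      (∀ ω, IsPropagator tau lam nu ω (U ω)) → (∀ ω, IsPropagator tau' lam' nu' ω (U' ω)) →
    ∀ A : ((Fin d → ℤ) → ℝ) → L2 d → L2 d, IsField (iid d μ) A →
      (∀ ψ : ((Fin d → ℤ) → ℝ) → L2 d, (∀ x, Measurable fun ω => (ψ ω) x) →
        ∫⁻ ω, ‖ψ ω‖ₑ ^ 2 ∂(iid d μ) < ∞ →
        Tendsto (fun T : ℝ => ∫⁻ ω, ‖((T : ℂ)⁻¹) • ∫ s in (0 : ℝ)..T,
            U' ω (-s) (A ω (U ω s (ψ ω)))‖ₑ ^ 2 ∂(iid d μ)) atTop (𝓝 0)) ∧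
      (∀ᵐ ω ∂(iid d μ), ∀ u w : L2 d,
        (Tendsto (fun t : ℝ => U' ω (-t) (A ω (U ω t u))) atTop (𝓝 w) ∨
          Tendsto (fun t : ℝ => U' ω (-t) (A ω (U ω t u))) atBot (𝓝 w)) → w = 0) ∧
      ((∀ᵐ ω ∂(iid d μ), ∀ (t : ℝ) (u : L2 d), A ω (U ω t u) = U' ω t (A ω u)) →
        ∀ᵐ ω ∂(iid d μ), ∀ u : L2 d, A ω u = 0) := by
  classical
  refine ⟨fun tau lam nu ω => ?_, fun tau lam nu tau' lam' nu' hlam hne U U' hU hU' A hA => ?_⟩
  · obtain ⟨W, hW⟩ := NB.ALL.a_EX d (-tau) (pot (af lam (2 * d * tau + nu)) ω)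
    refine ⟨fun t u => W.U t u, prop_of_grp hW, fun U hU => ?_⟩
    funext t u
    exact prop_eq hW hU t u
  set P : Measure ((Fin d → ℤ) → ℝ) := iid d μ with hP
  choose ev hev using fun V : NB.Site d → ℝ => NB.ALL.a_EX d (-tau) V
  choose ev' hev' using fun V : NB.Site d → ℝ => NB.ALL.a_EX d (-tau') V
  have hUe : ∀ (ω : (Fin d → ℤ) → ℝ) (t : ℝ) (u : L2 d),
      U ω t u = (ev (pot (af lam (2 * d * tau + nu)) ω)).U t u := fun ω t u =>
    prop_eq (hev _) (hU ω) t u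
  have hUe' : ∀ (ω : (Fin d → ℤ) → ℝ) (t : ℝ) (u : L2 d),
      U' ω t u = (ev' (pot (af lam' (2 * d * tau' + nu')) ω)).U t u := fun ω t u =>
    prop_eq (hev' _) (hU' ω) t u
  -- the operators
  obtain ⟨M, hM⟩ := hA.bounded
  set XL : ((Fin d → ℤ) → ℝ) → NB.L2 (NB.Site d) →L[ℂ] NB.L2 (NB.Site d) := fun V =>
    lin (A V) (hA.linear V) ⟨M, hM V⟩ with hXL
  obtain ⟨G, hGm, hG, hGi, hGa⟩ := inv_set (d := d) μ hA.covariant
  have hcv : Cv fun V => if V ∈ G then XL V else 0 := by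
    refine cv_mod hGm hGi (fun V hV z S hS ψ => ?_) (fun x y => hA.measurable _ x)
      ⟨max M 0, fun V => ?_⟩ 0 (fun z S hS ψ => by simp)
    · ext j
      rw [hS]
      exact hG V hV z ψ (S ψ) (fun j => hS ψ j) j
    · refine ContinuousLinearMap.opNorm_le_bound _ (le_max_right _ _) fun x => ?_
      exact (hM V x).trans (by gcongr; exact le_max_left _ _)
  have hab : lam' ≠ lam ∨ 2 * d * tau' + nu' ≠ 2 * d * tau + nu ∨ |-tau'| ≠ |-tau| := by
    rw [abs_neg, abs_neg]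
    by_contra hcon
    push Not at hcon
    exact hne ⟨hcon.1, hcon.2.2, hcon.2.1⟩
  have hzero := zAff hd hev hev' hlam hab μ hμ hR hcv
  have hW' := ce_af hev' lam' (2 * d * tau' + nu')
  have hW2 := ce_af hev lam (2 * d * tau + nu)
  have key : ∀ V, V ∈ G → ∀ (s t : ℝ) (u : L2 d),
      ((ev' (pot (af lam' (2 * d * tau' + nu')) V)).U s)
        ((if V ∈ G then XL V else 0) ((ev (pot (af lam (2 * d * tau + nu)) V)).U t u)) =
      U' V s (A V (U V t u)) := by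
    intro V hV s t u
    rw [if_pos hV, hUe, hUe']
    rfl
  have hlim := as_lim hW' hW2 hcv μ hzero
  have part2 : ∀ᵐ V ∂P, ∀ u w : L2 d,
        (Tendsto (fun t : ℝ => U' V (-t) (A V (U V t u))) atTop (𝓝 w) ∨
          Tendsto (fun t : ℝ => U' V (-t) (A V (U V t u))) atBot (𝓝 w)) →
          w = 0 := by
    filter_upwards [hlim, hGa] with V hV hVg u w huw
    refine hV u w ?_
    have e : (fun t : ℝ => ((ev' (pot (af lam' (2 * d * tau' + nu')) V)).U (-t))
        ((if V ∈ G then XL V else 0) ((ev (pot (af lam (2 * d * tau + nu)) V)).U t u))) =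
        fun t : ℝ => U' V (-t) (A V (U V t u)) := by
      funext t
      exact key V hVg (-t) t u
    rw [e]
    exact huw
  refine ⟨fun ψ hψ hψ2 => ?_, part2, fun hint => ?_⟩
  · have hsm : StronglyMeasurable ψ := sm_of_coord hψ
    have hmem : MemLp ψ 2 P := by
      refine ⟨hsm.aestronglyMeasurable, ?_⟩
      have h1 := n2_sq P ψ
      by_contra h2
      rw [not_lt, top_le_iff] at h2
      rw [h2] at h1
      rw [← h1] at hψ2
      simp at hψ2
    have h := ext_T hW' hW2 hcv μ hzero hsm hmem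
    refine h.congr fun T => ?_
    refine lintegral_congr_ae ?_
    filter_upwards [hGa] with V hVg
    congr 2
    unfold aT
    congr 1
    refine intervalIntegral.integral_congr fun s _ => ?_
    exact key V hVg (-s) s (ψ V)
  · filter_upwards [part2, hint] with V hV hVi u
    refine hV u (A V u) (Or.inl ?_)
    have e : (fun t : ℝ => U' V (-t) (A V (U V t u))) = fun _ => A V u := by
      funext t
      rw [hVi t u, hUe', hUe', ← NB.UG.add', neg_add_cancel, NB.UG.zero']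
    rw [e]
    exact tendsto_const_nhds

theorem unif_prob {c : ℝ} (hc : 0 < c) : IsProbabilityMeasure (unif c) := by
  refine ⟨?_⟩
  unfold unif
  rw [Measure.smul_apply, Measure.restrict_apply_univ, Real.volume_Icc, smul_eq_mul,
    ← ENNReal.ofReal_mul (by positivity)]
  rw [show 1 / (2 * c) * (c - -c) = 1 by field_simp; ring, ENNReal.ofReal_one]

/-- Let `d ≥ 1`, `c > 0` and `ω_j` iid uniform on `[-c, c]`, and let `(τ, λ, ν)`, `(τ', λ', ν')` be
real parameters with `λ ≠ 0`, not both `λ' = λ`, `|τ'| = |τ|` and `2dτ' + ν' = 2dτ + ν`. (The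
operator `Δ_ω` is the case `(1, 1, 0)`.) Write `U_ω(t) = e^{-itH}`, `U'_ω(t) = e^{-itH'}` for the
propagators, which exist and are unique for all parameters and all `ω`, and let `A_ω` be bounded
covariant operators. Then:

* `E ‖T⁻¹ ∫_0^T U'(-s) A U(s) ψ ds‖² → 0` as `T → ∞` for all random states `ψ` with `E ‖ψ‖² < ∞`;
* almost surely, for all `u ∈ ℓ²`, if `U'(-t) A U(t) u` converges as `t → ∞` or as `t → -∞` then the
  limit is zero;
* if `A U(t) = U'(t) A` for all `t`, almost surely, then `A = 0` almost surely. -/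
theorem result (d : ℕ) (hd : 0 < d) (c : ℝ) (hc : 0 < c) :
    (∀ (tau lam nu : ℝ) (ω : (Fin d → ℤ) → ℝ),
      ∃! U : ℝ → L2 d → L2 d, IsPropagator tau lam nu ω U) ∧
    ∀ tau lam nu tau' lam' nu' : ℝ, lam ≠ 0 →
      ¬(lam' = lam ∧ |tau'| = |tau| ∧ 2 * d * tau' + nu' = 2 * d * tau + nu) →
    ∀ U U' : ((Fin d → ℤ) → ℝ) → ℝ → L2 d → L2 d,
      (∀ ω, IsPropagator tau lam nu ω (U ω)) → (∀ ω, IsPropagator tau' lam' nu' ω (U' ω)) →
    ∀ A : ((Fin d → ℤ) → ℝ) → L2 d → L2 d, IsField (iid d (unif c)) A →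
      (∀ ψ : ((Fin d → ℤ) → ℝ) → L2 d, (∀ x, Measurable fun ω => (ψ ω) x) →
        ∫⁻ ω, ‖ψ ω‖ₑ ^ 2 ∂(iid d (unif c)) < ∞ →
        Tendsto (fun T : ℝ => ∫⁻ ω, ‖((T : ℂ)⁻¹) • ∫ s in (0 : ℝ)..T,
            U' ω (-s) (A ω (U ω s (ψ ω)))‖ₑ ^ 2 ∂(iid d (unif c))) atTop (𝓝 0)) ∧
      (∀ᵐ ω ∂(iid d (unif c)), ∀ u w : L2 d,
        (Tendsto (fun t : ℝ => U' ω (-t) (A ω (U ω t u))) atTop (𝓝 w) ∨
          Tendsto (fun t : ℝ => U' ω (-t) (A ω (U ω t u))) atBot (𝓝 w)) → w = 0) ∧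
      ((∀ᵐ ω ∂(iid d (unif c)), ∀ (t : ℝ) (u : L2 d), A ω (U ω t u) = U' ω t (A ω u)) →
        ∀ᵐ ω ∂(iid d (unif c)), ∀ u : L2 d, A ω u = 0) := by
  have := unif_prob hc
  refine general d hd (unif c) ?_ c ?_
  · exact (Measure.smul_absolutelyContinuous).trans
      Measure.restrict_le_self.absolutelyContinuous
  · refine (Measure.smul_absolutelyContinuous : unif c ≪ volume.restrict (Set.Icc (-c) c)).ae_le ?_
    filter_upwards [ae_restrict_mem measurableSet_Icc] with r hr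
    exact abs_le.2 ⟨hr.1, hr.2⟩

end Pool.Agent.Results.MP_562b47_mp.ParameterRigidity
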